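import Pool.Agent.TH346.CG.Defs2
import Pool.Agent.W259.GS.Pack

/-!
# Polynomial packing bound
-/

open Finset
open scoped Pointwise

namespace Pool.Agent.TH589.CG

open Pool.Agent.W259.GS

/-- The packing lemma with an explicit sample size. -/
theorem packing_explicit (N n : ℕ) (δ r : ℝ) (hr0 : 0 ≤ r) (hδr : 1 - δ ≤ r)
    (hn : ((N : ℝ) + 1) ^ 2 * ((n : ℝ) + 1) ^ (N * 2) * r ^ n < 1)
    (V : Type) [Fintype V]
    (G : SimpleGraph V) (w : V → ℝ) (hw : ∀ v, 0 ≤ w v) (hsum : ∑ v, w v = 1)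
    (hsh : ∀ X : Finset V, Sh G X Set.univ → X.card < N)
    (U : Finset V) (hU : ∀ u ∈ U, ∀ v ∈ U, u ≠ v → δ ≤ nd G w u v) :
    U.card ≤ N * (n + 1) ^ N := by
  classical
  by_contra hge0
  have hge : N * (n + 1) ^ N + 1 ≤ U.card := by omega
  obtain ⟨U', hU', hU'c⟩ := Finset.exists_subset_card_eq hge
  -- the constant
  have hM : ((N * (n + 1) ^ N + 1 : ℕ) : ℝ) ^ 2 * r ^ n < 1 := by
    refine lt_of_le_of_lt ?_ hn
    have h1 : ((N * (n + 1) ^ N + 1 : ℕ) : ℝ) ≤ ((N : ℝ) + 1) * ((n : ℝ) + 1) ^ N := by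
      push_cast
      have : (1 : ℝ) ≤ ((n : ℝ) + 1) ^ N := one_le_pow₀ (by linarith [Nat.cast_nonneg (α := ℝ) n])
      nlinarith
    have h2 : ((N * (n + 1) ^ N + 1 : ℕ) : ℝ) ^ 2 ≤ (((N : ℝ) + 1) * ((n : ℝ) + 1) ^ N) ^ 2 :=
      pow_le_pow_left₀ (Nat.cast_nonneg _) h1 2
    calc ((N * (n + 1) ^ N + 1 : ℕ) : ℝ) ^ 2 * r ^ n
        ≤ (((N : ℝ) + 1) * ((n : ℝ) + 1) ^ N) ^ 2 * r ^ n :=
          mul_le_mul_of_nonneg_right h2 (pow_nonneg hr0 n)
      _ = ((N : ℝ) + 1) ^ 2 * ((n : ℝ) + 1) ^ (N * 2) * r ^ n := by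
          rw [mul_pow, ← pow_mul]
  -- a good sample
  have hsample : ∃ f : Fin n → V, ∀ u ∈ U', ∀ v ∈ U', u ≠ v →
      ∃ t, ¬ (G.Adj u (f t) ↔ G.Adj v (f t)) := by
    by_contra hno
    push Not at hno
    set W : V × V → V → ℝ := fun p z => if (G.Adj p.1 z ↔ G.Adj p.2 z) then w z else 0 with hW
    have hW0 : ∀ p z, 0 ≤ W p z := by
      intro p z
      simp only [hW]
      split_ifs
      · exact hw z
      · exact le_rfl
    have hWsum : ∀ p ∈ U'.offDiag, ∑ z, W p z ≤ r := by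
      intro p hp
      obtain ⟨h1, h2, h3⟩ := Finset.mem_offDiag.1 hp
      have h4 : ∑ z, W p z + nd G w p.1 p.2 = 1 := by
        unfold nd
        rw [← hsum, ← Finset.sum_add_distrib]
        apply Finset.sum_congr rfl
        intro z _
        simp only [hW]
        split_ifs <;> simp
      have h5 := hU p.1 (hU' h1) p.2 (hU' h2) h3
      linarith
    have h1 : (1 : ℝ) ≤ ∑ p ∈ U'.offDiag, (∑ z, W p z) ^ n := by
      have e1 : (1 : ℝ) = ∑ f : Fin n → V, ∏ t, w (f t) := by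
        rw [← Fintype.sum_pow, hsum, one_pow]
      have e2 : ∑ p ∈ U'.offDiag, (∑ z, W p z) ^ n =
          ∑ f : Fin n → V, ∑ p ∈ U'.offDiag, ∏ t, W p (f t) := by
        rw [Finset.sum_comm]
        apply Finset.sum_congr rfl
        intro p _
        rw [Fintype.sum_pow]
      rw [e2, e1]
      apply Finset.sum_le_sum
      intro f _
      obtain ⟨u, hu, v, hv, huv, hall⟩ := hno f
      have hmem : (u, v) ∈ U'.offDiag := Finset.mem_offDiag.2 ⟨hu, hv, huv⟩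
      have h2 : ∏ t, w (f t) = ∏ t, W (u, v) (f t) := by
        apply Finset.prod_congr rfl
        intro t _
        simp only [hW]
        rw [if_pos (hall t)]
      rw [h2]
      exact Finset.single_le_sum (f := fun p => ∏ t, W p (f t))
        (fun p _ => Finset.prod_nonneg (fun t _ => hW0 p (f t))) hmem
    have h2 : ∑ p ∈ U'.offDiag, (∑ z, W p z) ^ n ≤ ∑ _p ∈ U'.offDiag, r ^ n := by
      apply Finset.sum_le_sum
      intro p hp
      exact pow_le_pow_left₀ (Finset.sum_nonneg (fun z _ => hW0 p z)) (hWsum p hp) n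
    rw [Finset.sum_const, nsmul_eq_mul] at h2
    have h3 : ((U'.offDiag.card : ℕ) : ℝ) ≤ ((N * (n + 1) ^ N + 1 : ℕ) : ℝ) ^ 2 := by
      rw [← hU'c]
      have : U'.offDiag.card ≤ U'.card ^ 2 := by
        rw [Finset.offDiag_card, sq]
        exact Nat.sub_le _ _
      exact_mod_cast this
    have h4 : ((U'.offDiag.card : ℕ) : ℝ) * r ^ n ≤ ((N * (n + 1) ^ N + 1 : ℕ) : ℝ) ^ 2 * r ^ n :=
      mul_le_mul_of_nonneg_right h3 (pow_nonneg hr0 n)
    linarith
  obtain ⟨f, hf⟩ := hsample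
  set S : Finset V := Finset.univ.image f with hS
  have hSc : S.card ≤ n := by
    calc S.card ≤ (Finset.univ : Finset (Fin n)).card := Finset.card_image_le
      _ = n := by simp
  set 𝒜 : Finset (Finset V) := U'.image (fun u => S.filter (fun z => G.Adj u z)) with h𝒜
  have hinj : Set.InjOn (fun u => S.filter (fun z => G.Adj u z)) (U' : Set V) := by
    intro u hu v hv huv
    by_contra hne
    obtain ⟨t, ht⟩ := hf u hu v hv hne
    apply ht
    have hmem : f t ∈ S := Finset.mem_image_of_mem f (Finset.mem_univ t)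
    have h1 : (f t ∈ S.filter (fun z => G.Adj u z)) ↔ (f t ∈ S.filter (fun z => G.Adj v z)) := by
      dsimp only at huv
      rw [huv]
    rw [Finset.mem_filter, Finset.mem_filter] at h1
    exact ⟨fun h => (h1.1 ⟨hmem, h⟩).2, fun h => (h1.2 ⟨hmem, h⟩).2⟩
  have h𝒜c : 𝒜.card = N * (n + 1) ^ N + 1 := by
    rw [h𝒜, Finset.card_image_of_injOn hinj, hU'c]
  have hlt : N * (S.card + 1) ^ N < 𝒜.card := by
    rw [h𝒜c]
    have : N * (S.card + 1) ^ N ≤ N * (n + 1) ^ N :=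
      Nat.mul_le_mul_left _ (Nat.pow_le_pow_left (by omega) _)
    omega
  obtain ⟨X, hXS, hXc, hXs⟩ := sauer S 𝒜 (by
    intro A hA
    obtain ⟨u, _, rfl⟩ := Finset.mem_image.1 hA
    exact Finset.filter_subset _ _) N hlt
  have hShX : Sh G X Set.univ := by
    intro A hA
    obtain ⟨B, hB, hBe⟩ := hXs hA
    obtain ⟨u, _, rfl⟩ := Finset.mem_image.1 hB
    refine ⟨u, Set.mem_univ _, fun x hx => ?_⟩
    rw [← hBe, Finset.mem_inter, Finset.mem_filter]
    exact ⟨fun h => ⟨hx, hXS hx, h⟩, fun h => h.2.2⟩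
  have := hsh X hShX
  omega

/-- The sample size can be chosen as `c q ^ 2`. -/
theorem sample_size (N : ℕ) : ∃ c : ℕ, ∀ q : ℕ, 1 ≤ q →
    ((N : ℝ) + 1) ^ 2 * (((c * q ^ 2 : ℕ) : ℝ) + 1) ^ (N * 2) *
      (1 - 1 / (q : ℝ)) ^ (c * q ^ 2) < 1 := by
  have h1 := Real.tendsto_pow_mul_exp_neg_atTop_nhds_zero (4 * N)
  have h2 : Filter.Tendsto (fun y : ℝ => y + 1) Filter.atTop Filter.atTop :=
    Filter.tendsto_atTop_add_const_right _ _ Filter.tendsto_id
  have h3 := (h1.comp h2).const_mul (((N : ℝ) + 1) ^ 2 * Real.exp 1)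
  rw [mul_zero] at h3
  have h4 := h3.eventually (gt_mem_nhds (show (0 : ℝ) < 1 by norm_num))
  obtain ⟨Y, hY⟩ := Filter.eventually_atTop.1 h4
  refine ⟨max 1 ⌈Y⌉₊, ?_⟩
  set c := max 1 ⌈Y⌉₊ with hc
  intro q hq
  have hc1 : (1 : ℝ) ≤ c := by
    have : 1 ≤ c := le_max_left _ _
    exact_mod_cast this
  have hcY : Y ≤ c := by
    have h5 : ⌈Y⌉₊ ≤ c := le_max_right _ _
    exact (Nat.le_ceil Y).trans (by exact_mod_cast h5)
  have hq1 : (1 : ℝ) ≤ q := by exact_mod_cast hq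
  have hq0 : (0 : ℝ) < q := by linarith
  set y : ℝ := c * q with hy
  have hyY : Y ≤ y := by
    have : (c : ℝ) ≤ c * q := by nlinarith
    linarith
  have h6 := hY y hyY
  simp only [Function.comp] at h6
  have hy0 : 0 ≤ y := by positivity
  have h7 : (((c * q ^ 2 : ℕ) : ℝ) + 1) ≤ (y + 1) ^ 2 := by
    push_cast
    have h8 : (c : ℝ) * q ^ 2 ≤ y ^ 2 := by
      rw [hy, mul_pow]
      have : (c : ℝ) ≤ (c : ℝ) ^ 2 := by nlinarith
      exact mul_le_mul_of_nonneg_right this (by positivity)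
    nlinarith
  have h9 : (((c * q ^ 2 : ℕ) : ℝ) + 1) ^ (N * 2) ≤ (y + 1) ^ (4 * N) := by
    calc (((c * q ^ 2 : ℕ) : ℝ) + 1) ^ (N * 2) ≤ ((y + 1) ^ 2) ^ (N * 2) :=
          pow_le_pow_left₀ (by positivity) h7 _
      _ = (y + 1) ^ (4 * N) := by
          rw [← pow_mul]
          congr 1
          ring
  have hb0 : 0 ≤ 1 - 1 / (q : ℝ) := by
    have : 1 / (q : ℝ) ≤ 1 := by
      rw [div_le_one hq0]
      exact hq1
    linarith
  have h10 : (1 - 1 / (q : ℝ)) ^ (c * q ^ 2) ≤ Real.exp (-y) := by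
    have h11 : 1 - 1 / (q : ℝ) ≤ Real.exp (-(1 / (q : ℝ))) := by
      have := Real.add_one_le_exp (-(1 / (q : ℝ)))
      linarith
    calc (1 - 1 / (q : ℝ)) ^ (c * q ^ 2) ≤ (Real.exp (-(1 / (q : ℝ)))) ^ (c * q ^ 2) :=
          pow_le_pow_left₀ hb0 h11 _
      _ = Real.exp (-y) := by
          rw [← Real.exp_nat_mul]
          congr 1
          push_cast
          rw [hy]
          field_simp
  have h12 : Real.exp 1 * Real.exp (-(y + 1)) = Real.exp (-y) := by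
    rw [← Real.exp_add]
    congr 1
    ring
  calc ((N : ℝ) + 1) ^ 2 * (((c * q ^ 2 : ℕ) : ℝ) + 1) ^ (N * 2) *
        (1 - 1 / (q : ℝ)) ^ (c * q ^ 2)
      ≤ ((N : ℝ) + 1) ^ 2 * (y + 1) ^ (4 * N) * Real.exp (-y) := by
        apply mul_le_mul _ h10 (pow_nonneg hb0 _) (by positivity)
        exact mul_le_mul_of_nonneg_left h9 (by positivity)
    _ = ((N : ℝ) + 1) ^ 2 * Real.exp 1 * ((y + 1) ^ (4 * N) * Real.exp (-(y + 1))) := by
        rw [← h12]
        ring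
    _ < 1 := h6

open Classical in
theorem packing_poly (N : ℕ) : ∃ C d : ℕ, ∀ (V : Type) [Fintype V] (G : SimpleGraph V)
    (R U : Finset V) (q : ℕ), 1 ≤ q → R.Nonempty →
    (∀ X : Finset V, Pool.Agent.W259.GS.Sh G X Set.univ → X.card < N) →
    (∀ u ∈ U, ∀ v ∈ U, u ≠ v →
      R.card ≤ q * (R.filter fun z => ¬ (G.Adj u z ↔ G.Adj v z)).card) →
    U.card ≤ C * q ^ d := by
  obtain ⟨c, hc⟩ := sample_size N
  refine ⟨N * (c + 1) ^ N, 2 * N, ?_⟩
  intro V _ G R U q hq hR hsh hU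
  have hRc : (0 : ℝ) < R.card := by exact_mod_cast hR.card_pos
  have hq0 : (0 : ℝ) < q := by exact_mod_cast hq
  have hq1 : (1 : ℝ) ≤ q := by exact_mod_cast hq
  have hb0 : 0 ≤ 1 - 1 / (q : ℝ) := by
    have : 1 / (q : ℝ) ≤ 1 := by
      rw [div_le_one hq0]
      exact hq1
    linarith
  set w : V → ℝ := fun z => if z ∈ R then 1 / (R.card : ℝ) else 0 with hw
  have hw0 : ∀ v, 0 ≤ w v := by
    intro v
    simp only [hw]
    split_ifs
    · positivity
    · exact le_rfl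
  have hsum : ∑ v, w v = 1 := by
    simp only [hw]
    rw [Finset.sum_ite_mem, Finset.univ_inter, Finset.sum_const, nsmul_eq_mul]
    field_simp
  have hnd : ∀ u v, nd G w u v =
      ((R.filter fun z => ¬ (G.Adj u z ↔ G.Adj v z)).card : ℝ) / R.card := by
    intro u v
    unfold nd
    have h1 : ∀ z, (if (G.Adj u z ↔ G.Adj v z) then 0 else w z) =
        if z ∈ R.filter (fun z => ¬ (G.Adj u z ↔ G.Adj v z)) then 1 / (R.card : ℝ) else 0 := by
      intro z
      simp only [hw, Finset.mem_filter]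
      by_cases h2 : (G.Adj u z ↔ G.Adj v z)
      · rw [if_pos h2, if_neg (fun h => h.2 h2)]
      · rw [if_neg h2]
        by_cases h3 : z ∈ R
        · rw [if_pos h3, if_pos ⟨h3, h2⟩]
        · rw [if_neg h3, if_neg (fun h => h3 h.1)]
    rw [Finset.sum_congr rfl (fun z _ => h1 z), Finset.sum_ite_mem, Finset.univ_inter,
      Finset.sum_const, nsmul_eq_mul, mul_one_div]
  have hU' : ∀ u ∈ U, ∀ v ∈ U, u ≠ v → 1 / (q : ℝ) ≤ nd G w u v := by
    intro u hu v hv huv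
    rw [hnd, div_le_div_iff₀ hq0 hRc]
    have h1 := hU u hu v hv huv
    have h2 : (R.card : ℝ) ≤ q * ((R.filter fun z => ¬ (G.Adj u z ↔ G.Adj v z)).card : ℝ) := by
      exact_mod_cast h1
    linarith
  have h1 := packing_explicit N (c * q ^ 2) (1 / (q : ℝ)) (1 - 1 / (q : ℝ)) hb0 le_rfl (hc q hq)
    V G w hw0 hsum hsh U hU'
  refine h1.trans ?_
  have h2 : c * q ^ 2 + 1 ≤ (c + 1) * q ^ 2 := by
    have : 1 ≤ q ^ 2 := Nat.one_le_pow _ _ hq
    nlinarith
  calc N * (c * q ^ 2 + 1) ^ N ≤ N * ((c + 1) * q ^ 2) ^ N :=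
        Nat.mul_le_mul_left _ (Nat.pow_le_pow_left h2 _)
    _ = N * (c + 1) ^ N * q ^ (2 * N) := by
        rw [mul_pow, ← pow_mul, mul_assoc]

end Pool.Agent.TH589.CG
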